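import Pool.Agent.Lib.MP_0bd9b3_al.Defs

namespace Pool.Agent.Lib.MP_0bd9b3_al

open Finset

section pw

variable {M : Type*}

@[simp] lemma pw_one [Mul M] [Zero M] (A : M) : pw A 1 = A := rfl

lemma pw_succ [Mul M] [Zero M] (A : M) (n : ℕ) : pw A (n + 2) = pw A (n + 1) * A := rfl

lemma map_pw {N : Type*} [NonUnitalNonAssocRing M] [NonUnitalNonAssocRing N] (φ : M →ₙ+* N)
    (A : M) : ∀ k : ℕ, φ (pw A k) = pw (φ A) k
  | 0 => by simp [pw]
  | 1 => rfl
  | (n + 2) => by rw [pw_succ, pw_succ, map_mul, map_pw φ A (n + 1)]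

lemma pw_eq_pow [Monoid M] [Zero M] (A : M) : ∀ k : ℕ, pw A (k + 1) = A ^ (k + 1)
  | 0 => by simp
  | (n + 1) => by rw [pw_succ, pw_eq_pow A n, ← pow_succ]

lemma pw_add [Semigroup M] [Zero M] (A : M) (m : ℕ) :
    ∀ n : ℕ, pw A (m + 1 + (n + 1)) = pw A (m + 1) * pw A (n + 1)
  | 0 => by rw [zero_add, pw_one]; rfl
  | (n + 1) => by
      have h := pw_add A m n
      have e : m + 1 + (n + 1 + 1) = (m + 1 + n) + 2 := by ring
      have e' : m + 1 + (n + 1) = m + 1 + n + 1 := by ring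
      rw [e, pw_succ, ← e', h, mul_assoc, ← pw_succ]

end pw

/-- Sums over cosets. -/
lemma sum_eq_zero_of_coset {G V : Type*} [AddCommGroup G] [Fintype G] [AddCommMonoid V]
    (W : AddSubgroup G) [Fintype W] (f : G → V) (h : ∀ a, ∑ x : W, f (a + x) = 0) :
    ∑ a, f a = 0 := by
  classical
  rw [← Finset.sum_fiberwise (s := univ) (g := fun a : G => (QuotientAddGroup.mk a : G ⧸ W))]
  refine Finset.sum_eq_zero fun q _ => ?_
  obtain ⟨a, rfl⟩ := QuotientAddGroup.mk_surjective q
  rw [← h a]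
  symm
  refine Finset.sum_bij (fun (x : W) _ => a + (x : G)) ?_ ?_ ?_ ?_
  · intro x _
    simp only [mem_filter, mem_univ, true_and]
    exact QuotientAddGroup.mk_add_of_mem a x.2
  · intro x _ y _ hxy
    exact Subtype.ext (add_left_cancel hxy)
  · intro b hb
    simp only [mem_filter, mem_univ, true_and] at hb
    have : -a + b ∈ W := QuotientAddGroup.eq.mp hb.symm
    exact ⟨⟨-a + b, this⟩, mem_univ _, by simp⟩
  · intro x _
    rfl

/-- A fixed-point free map of order `p` preserving `f`. -/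
lemma sum_eq_zero_of_free {G V : Type*} [Fintype G] [AddCommMonoid V] (p : ℕ) [Fact p.Prime]
    (τ : G → G) (hτ : ∀ a, τ^[p] a = a) (hfree : ∀ a, τ a ≠ a) (f : G → V)
    (hf : ∀ a, f (τ a) = f a) (hp : ∀ a, p • f a = 0) : ∑ a, f a = 0 := by
  classical
  rw [← Finset.sum_fiberwise_of_maps_to (s := univ) (t := univ.image f) (g := f)
    (fun a ha => mem_image_of_mem f ha)]
  refine Finset.sum_eq_zero fun v hv => ?_
  obtain ⟨a0, -, rfl⟩ := mem_image.mp hv
  have hc : ∑ a ∈ univ.filter (fun a => f a = f a0), f a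
      = (univ.filter (fun a => f a = f a0)).card • f a0 := by
    rw [← Finset.sum_const]
    exact Finset.sum_congr rfl fun a ha => (mem_filter.mp ha).2
  rw [hc]
  let g : Function.End {a // f a = f a0} := fun a => ⟨τ a.1, by rw [hf, a.2]⟩
  have hit : ∀ (n : ℕ) (a : {a // f a = f a0}), ((g ^ n) a).1 = τ^[n] a.1 := by
    intro n
    induction n with
    | zero => intro a; rfl
    | succ n ih =>
      intro a
      rw [pow_succ, Function.iterate_succ_apply]
      exact ih (g a)
  have hg : g ^ p ^ 1 = 1 := by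
    funext a
    apply Subtype.ext
    rw [pow_one, hit, hτ]
    rfl
  have hmod := Equiv.Perm.card_fixedPoints_modEq hg
  have h0 : Fintype.card (Function.fixedPoints g) = 0 := by
    rw [Fintype.card_eq_zero_iff]
    exact ⟨fun a => hfree a.1.1 (congrArg Subtype.val a.2)⟩
  rw [h0, Fintype.card_subtype] at hmod
  obtain ⟨c, hc⟩ := (Nat.modEq_zero_iff_dvd).mp hmod
  rw [hc, mul_comm, mul_smul, hp, smul_zero]

end Pool.Agent.Lib.MP_0bd9b3_al
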