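import Mathlib

namespace Pool.Agent.Lib.MP_0bd9b3_al

/-- `pw A k` is the `k`-th power `A * A * ⋯ * A` (`k` factors) for `k ≥ 1` in a ring that need not
have an identity; the value at `k = 0` is never used. -/
def pw {M : Type*} [Mul M] [Zero M] (A : M) : ℕ → M
  | 0 => 0
  | 1 => A
  | (n + 2) => pw A (n + 1) * A

end Pool.Agent.Lib.MP_0bd9b3_al
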