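import Pool.Agent.Lib.MP_0bd9b3_al.Mat

namespace Pool.Agent.Lib.MP_0bd9b3_al

open Finset

variable {F : Type*} [Field F]

/-- Coefficients of `A ^ k = u • A + v • 1` in terms of trace and determinant. -/
def uv (t e : F) : ℕ → F × F
  | 0 => (0, 1)
  | (n + 1) => (t * (uv t e n).1 + (uv t e n).2, -e * (uv t e n).1)

lemma pow_two_by_two (a b c e : F) (k : ℕ) :
    (!![a, b; c, e] : Matrix (Fin 2) (Fin 2) F) ^ k =
      !![(uv (a + e) (a * e - b * c) k).1 * a + (uv (a + e) (a * e - b * c) k).2,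
          (uv (a + e) (a * e - b * c) k).1 * b;
        (uv (a + e) (a * e - b * c) k).1 * c,
          (uv (a + e) (a * e - b * c) k).1 * e + (uv (a + e) (a * e - b * c) k).2] := by
  induction k with
  | zero => simp [uv, Matrix.one_fin_two]
  | succ k ih =>
    rw [pow_succ, ih, Matrix.mul_fin_two]
    simp only [uv]
    congr 1
    ext i j
    fin_cases i <;> fin_cases j <;> simp <;> ring

variable [Fintype F]

lemma sum_mul_pair (g : F → F) : ∑ b : F, ∑ c : F, g (b * c) = - ∑ t, g t := by
  classical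
  have h : ∀ b : F, ∑ c : F, g (b * c) = ∑ t, g t - if b = 0 then ∑ t, g t else 0 := by
    intro b
    by_cases hb : b = 0
    · subst hb
      simp
    · rw [if_neg hb, sub_zero]
      exact Fintype.sum_equiv (Equiv.mulLeft₀ b hb) _ _ fun c => rfl
  simp only [h, sum_sub_distrib, sum_const, card_univ, sum_ite_eq', mem_univ, if_true]
  simp

omit [Field F] in
lemma sum_matrix_two {V : Type*} [AddCommMonoid V] (f : Matrix (Fin 2) (Fin 2) F → V) :
    ∑ A, f A = ∑ a : F, ∑ e : F, ∑ b : F, ∑ c : F, f !![a, b; c, e] := by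
  let E : (F × F × F × F) ≃ Matrix (Fin 2) (Fin 2) F :=
    { toFun := fun x => !![x.1, x.2.2.1; x.2.2.2, x.2.1]
      invFun := fun A => (A 0 0, A 1 1, A 0 1, A 1 0)
      left_inv := fun x => rfl
      right_inv := fun A => (Matrix.eta_fin_two A).symm }
  rw [← Fintype.sum_equiv E (fun x => f (E x)) f fun _ => rfl]
  simp only [Fintype.sum_prod_type]
  rfl

lemma sum_aux (h : ∑ a : F, a = 0) (u v : F → F → F) :
    ∑ a : F, ∑ e : F, ∑ b : F, ∑ c : F,
      (u (a + e) (a * e - b * c) * a + v (a + e) (a * e - b * c)) = 0 := by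
  have h1 : ∀ a e : F, ∑ b : F, ∑ c : F,
      (u (a + e) (a * e - b * c) * a + v (a + e) (a * e - b * c))
      = - ∑ s : F, (u (a + e) s * a + v (a + e) s) := by
    intro a e
    rw [sum_mul_pair (fun t => u (a + e) (a * e - t) * a + v (a + e) (a * e - t))]
    congr 1
    exact Fintype.sum_equiv (Equiv.subLeft (a * e)) _ _ fun t => rfl
  have h2 : ∀ a : F, ∑ e : F, - ∑ s : F, (u (a + e) s * a + v (a + e) s)
      = - ((∑ t : F, ∑ s : F, u t s) * a + ∑ t : F, ∑ s : F, v t s) := by
    intro a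
    rw [Fintype.sum_equiv (Equiv.addLeft a) (fun e => - ∑ s : F, (u (a + e) s * a + v (a + e) s))
      (fun t => - ∑ s : F, (u t s * a + v t s)) fun _ => rfl]
    simp only [sum_neg_distrib, sum_add_distrib, sum_mul]
  simp only [h1, h2]
  simp only [sum_neg_distrib, sum_add_distrib, sum_const, card_univ]
  rw [← mul_sum, h]
  simp

theorem field_diag_zero (hF : Fintype.card F ≠ 2) (k : ℕ) (i : Fin 2) :
    (∑ A : Matrix (Fin 2) (Fin 2) F, A ^ k) i i = 0 := by
  classical
  have h : ∑ a : F, a = 0 := by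
    have h1 : 1 < Fintype.card F := Fintype.one_lt_card
    simpa using FiniteField.sum_pow_lt_card_sub_one F 1 (by omega)
  rw [Matrix.sum_apply, sum_matrix_two]
  simp only [pow_two_by_two]
  fin_cases i
  · simpa using sum_aux h (fun t s => (uv t s k).1) (fun t s => (uv t s k).2)
  · rw [Finset.sum_comm]
    have := sum_aux h (fun t s => (uv t s k).1) (fun t s => (uv t s k).2)
    simpa [add_comm, mul_comm] using this

/-- The case of the field with two elements. -/
theorem zmod_two (k : ℕ) : ∑ A : Matrix (Fin 2) (Fin 2) (ZMod 2), A ^ (k + 1) =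
    if 0 < k ∧ (k % 6 = 4 ∨ k % 6 = 5 ∨ k % 6 = 0) then 1 else 0 := by
  have h8 : ∀ A : Matrix (Fin 2) (Fin 2) (ZMod 2), A ^ 8 = A ^ 2 := by decide +kernel
  induction k using Nat.strong_induction_on with
  | _ k ih =>
    by_cases hk : k < 7
    · interval_cases k <;> decide +kernel
    · obtain ⟨n, rfl⟩ : ∃ n, k = n + 7 := ⟨k - 7, by omega⟩
      have : ∀ A : Matrix (Fin 2) (Fin 2) (ZMod 2), A ^ (n + 7 + 1) = A ^ (n + 1 + 1) := by
        intro A
        rw [show n + 7 + 1 = n + 8 by ring, pow_add, h8, ← pow_add]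
      simp only [this]
      rw [ih (n + 1) (by omega)]
      congr 1
      apply propext
      omega

end Pool.Agent.Lib.MP_0bd9b3_al
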