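import Pool.Agent.Lib.MP_0bd9b3_al.PRing

namespace Pool.Agent.Lib.MP_0bd9b3_al

open Finset

variable {R : Type*} [NonUnitalRing R] [Fintype R] {d : ℕ}

/-- Data of the projection onto the `p`-primary component. -/
lemma exists_proj (p : ℕ) (hp : p.Prime) (n : ℕ) (hn : n ≠ 0) :
    ∃ c m n' : ℕ, n = p ^ m * n' ∧ ¬ p ∣ n' ∧ c ≡ 1 [MOD p ^ m] ∧ n' ∣ c := by
  obtain ⟨m, n', h1, h2⟩ := Nat.exists_eq_pow_mul_and_not_dvd hn p hp.ne_one
  have hco : Nat.Coprime (p ^ m) n' :=
    Nat.Coprime.pow_left m ((Nat.Prime.coprime_iff_not_dvd hp).mpr h1)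
  obtain ⟨c, hc1, hc2⟩ := Nat.chineseRemainder hco 1 0
  exact ⟨c, m, n', h2, h1, hc1, (Nat.modEq_zero_iff_dvd).mp hc2⟩

lemma smul_congr_card {a b : ℕ} (h : a ≡ b [MOD Fintype.card R]) (x : R) : a • x = b • x := by
  rw [← mod_addOrderOf_nsmul, ← mod_addOrderOf_nsmul x b]
  congr 1
  exact h.of_dvd addOrderOf_dvd_card

/-- The projection as a ring homomorphism. -/
def proj (R : Type*) [NonUnitalRing R] (c : ℕ) (h : ∀ x : R, (c * c) • x = c • x) : R →ₙ+* R where
  toFun x := c • x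
  map_mul' x y := by rw [smul_mul_assoc, mul_smul_comm, smul_smul, h]
  map_zero' := smul_zero _
  map_add' := smul_add _

theorem comp_value (p : ℕ) [hp : Fact p.Prime] (c m n' : ℕ) (hn : Fintype.card R = p ^ m * n')
    (hn' : ¬ p ∣ n') (hc : c ≡ 1 [MOD p ^ m]) (hc' : n' ∣ c) (hd : 1 < d) (k : ℕ) :
    (¬ (p = 2 ∧ d = 2 ∧ Fintype.card R % 4 = 2 ∧ ∃ e : R, e ≠ 0 ∧ e + e = 0 ∧ e * e = e) →
      c • ∑ A : Matrix (Fin d) (Fin d) R, pw A (k + 1) = 0) ∧
    (∀ e : R, p = 2 → d = 2 → Fintype.card R % 4 = 2 → e ≠ 0 → e + e = 0 → e * e = e →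
      c • ∑ A : Matrix (Fin d) (Fin d) R, pw A (k + 1) =
        if 0 < k ∧ (k % 6 = 4 ∨ k % 6 = 5 ∨ k % 6 = 0) then Matrix.diagonal fun _ => e else 0) := by
  classical
  have hco : Nat.Coprime (p ^ m) n' :=
    Nat.Coprime.pow_left m ((Nat.Prime.coprime_iff_not_dvd hp.out).mpr hn')
  have hcc : ∀ x : R, (c * c) • x = c • x := by
    intro x
    apply smul_congr_card
    rw [hn, ← Nat.modEq_and_modEq_iff_modEq_mul hco]
    refine ⟨by simpa using hc.mul_left c, ?_⟩
    exact ((Nat.modEq_zero_iff_dvd).mpr (hc'.mul_left c)).trans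
      ((Nat.modEq_zero_iff_dvd).mpr hc').symm
  let π := proj R c hcc
  let R' := π.range
  let φ : R →ₙ+* R' := π.rangeRestrict
  have hφ : Function.Surjective φ := π.rangeRestrict_surjective
  have hφM : Function.Surjective (mapM φ d) := by
    intro B
    choose A hA using fun a b => hφ (B a b)
    exact ⟨Matrix.of A, by ext a b; exact congrArg Subtype.val (hA a b)⟩
  have hkill : ∀ x : R', p ^ m • x = 0 := by
    rintro ⟨_, x, rfl⟩
    apply Subtype.ext
    change p ^ m • c • x = 0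
    obtain ⟨t, rfl⟩ := hc'
    rw [smul_smul, ← mul_assoc, ← hn, mul_comm, mul_smul, card_nsmul_eq_zero, smul_zero]
  obtain ⟨f, hf1, hf2⟩ := map_sum_of_surj (mapM φ d) hφM (k + 1)
  have hval : c • ∑ A : Matrix (Fin d) (Fin d) R, pw A (k + 1)
      = (f • ∑ B : Matrix (Fin d) (Fin d) R', pw B (k + 1)).map Subtype.val := by
    rw [← hf2]
    rfl
  -- the kernel of the projection has order prime to `p`
  have hcard : Fintype.card R = Fintype.card R' * Nat.card φ.toAddMonoidHom.ker := by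
    rw [← Nat.card_eq_fintype_card, ← Nat.card_eq_fintype_card,
      AddSubgroup.card_eq_card_quotient_mul_card_addSubgroup φ.toAddMonoidHom.ker,
      Nat.card_congr (QuotientAddGroup.quotientKerEquivOfSurjective φ.toAddMonoidHom hφ).toEquiv]
  have hker : ¬ p ∣ Nat.card φ.toAddMonoidHom.ker := by
    intro h
    obtain ⟨x, hx⟩ := exists_prime_addOrderOf_dvd_card' p h
    have h1 : c • (x : R) = 0 := congrArg Subtype.val x.2
    have h2 : n' • (x : R) = 0 := by
      have : (n' * c) • (x : R) = (n' * 1) • (x : R) := by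
        apply smul_congr_card
        rw [hn, mul_comm (p ^ m)]
        exact Nat.ModEq.mul_left' n' hc
      rw [mul_one, mul_smul, h1, smul_zero] at this
      exact this.symm
    apply hn'
    rw [← hx, addOrderOf_dvd_iff_nsmul_eq_zero]
    exact Subtype.ext h2
  constructor
  · intro h
    rw [hval, pring_zero p m hkill hd ?_ k, smul_zero]
    · ext a b
      rfl
    rintro ⟨hd2, hc2, hred⟩
    apply h
    have : Nontrivial R' := Fintype.one_lt_card_iff_nontrivial.mp (by omega)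
    obtain ⟨e, he⟩ := exists_ne (0 : R')
    have he2 : addOrderOf e = 2 := by
      have h1 : addOrderOf e ∣ 2 := hc2 ▸ addOrderOf_dvd_card
      rcases (Nat.dvd_prime Nat.prime_two).mp h1 with h | h
      · exact absurd (AddMonoid.addOrderOf_eq_one_iff.mp h) he
      · exact h
    have hp2 : p = 2 := by
      have : 2 ∣ p ^ m := by
        rw [← he2, addOrderOf_dvd_iff_nsmul_eq_zero]
        exact hkill e
      exact ((Nat.prime_dvd_prime_iff_eq Nat.prime_two hp.out).mp
        (Nat.prime_two.dvd_of_dvd_pow this)).symm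
    refine ⟨hp2, hd2, ?_, e, fun h => he (Subtype.ext h), ?_, ?_⟩
    · rw [hp2] at hker
      rw [hcard, hc2]
      omega
    · have := addOrderOf_nsmul_eq_zero e
      rw [he2, two_nsmul] at this
      exact congrArg Subtype.val this
    · have h1 : e * e ≠ 0 := fun h => he (hred e h)
      have h2 : e * e = e := by
        by_contra h3
        have := Fintype.two_lt_card_iff.mpr ⟨e * e, e, 0, h3, h1, he⟩
        omega
      exact congrArg Subtype.val h2
  · intro e hp2 hd2 hn4 he h2e hee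
    subst hp2 hd2
    have hm : m = 1 := by
      rcases m with _ | _ | m
      · omega
      · rfl
      · rw [hn, show 2 ^ (m + 1 + 1) * n' = 4 * (2 ^ m * n') by ring] at hn4
        omega
    subst hm
    have hcodd : c % 2 = 1 := hc
    have hce : c • e = e := by
      rw [← Nat.div_add_mod c 2, hcodd, add_smul, one_smul, mul_comm, mul_smul, two_nsmul, h2e,
        smul_zero, zero_add]
    let e' : R' := ⟨e, e, hce⟩
    have he' : e' ≠ 0 := fun h => he (congrArg Subtype.val h)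
    have hc2 : Fintype.card R' = 2 := by
      obtain ⟨t, ht⟩ : ∃ t, Fintype.card R' = 2 ^ t := by
        refine ⟨_, Nat.eq_prime_pow_of_unique_prime_dvd Fintype.card_ne_zero ?_⟩
        intro q hq hqd
        have : Fact q.Prime := ⟨hq⟩
        obtain ⟨x, hx⟩ := exists_prime_addOrderOf_dvd_card q hqd
        have : q ∣ 2 := by
          rw [← hx, addOrderOf_dvd_iff_nsmul_eq_zero]
          simpa using hkill x
        exact (Nat.prime_dvd_prime_iff_eq hq Nat.prime_two).mp this
      have h1 : 1 < Fintype.card R' := Fintype.one_lt_card_iff_nontrivial.mpr ⟨e', 0, he'⟩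
      rcases t with _ | _ | t
      · omega
      · exact ht
      · rw [hcard, ht, show ∀ z : ℕ, 2 ^ (t + 1 + 1) * z = 4 * (2 ^ t * z) by intro z; ring] at hn4
        omega
    have hfodd : f % 2 = 1 := by
      have e1 : Fintype.card (Matrix (Fin 2) (Fin 2) R) = 16 * n' ^ 4 := by
        change Fintype.card (Fin 2 → Fin 2 → R) = _
        simp only [Fintype.card_pi, prod_const, card_univ, Fintype.card_fin, hn]
        ring
      have e2 : Fintype.card (Matrix (Fin 2) (Fin 2) R') = 16 := by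
        change Fintype.card (Fin 2 → Fin 2 → R') = _
        simp [hc2]
      rw [e1, e2] at hf1
      have : f = n' ^ 4 := by omega
      rw [this, ← Nat.odd_iff]
      exact Odd.pow (Nat.odd_iff.mpr (by omega))
    rw [hval, two_elements hc2 he' (Subtype.ext hee) k]
    have hfe : f • e = e := by
      rw [← Nat.div_add_mod f 2, hfodd, add_smul, one_smul, mul_comm, mul_smul, two_nsmul, h2e,
        smul_zero, zero_add]
    split_ifs
    · ext a b
      by_cases hab : a = b
      · subst hab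
        simpa using hfe
      · simp [Matrix.diagonal_apply_ne _ hab]
    · ext a b
      simp

lemma eq_zero_of_proj (X : Matrix (Fin d) (Fin d) R)
    (h : ∀ p : ℕ, p.Prime → ∀ c m n' : ℕ, Fintype.card R = p ^ m * n' → ¬ p ∣ n' →
      c ≡ 1 [MOD p ^ m] → n' ∣ c → c • X = 0) : X = 0 := by
  ext a b
  by_contra hx
  have h1 : addOrderOf (X a b) ≠ 1 := fun h => hx (AddMonoid.addOrderOf_eq_one_iff.mp h)
  obtain ⟨p, hp, hpd⟩ := Nat.exists_prime_and_dvd h1
  obtain ⟨c, m, n', hn, hn', hc, hc'⟩ := exists_proj p hp (Fintype.card R) Fintype.card_ne_zero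
  have h2 : c • X a b = 0 := congrFun (congrFun (h p hp c m n' hn hn' hc hc') a) b
  have h3 : p ∣ c := hpd.trans (addOrderOf_dvd_iff_nsmul_eq_zero.mpr h2)
  have h4 : p ∣ p ^ m * n' := hn ▸ hpd.trans addOrderOf_dvd_card
  have h5 : p ∣ p ^ m := ((Nat.Prime.dvd_mul hp).mp h4).resolve_right hn'
  have h6 : c ≡ 1 [MOD p] := hc.of_dvd h5
  have h7 : p ∣ 1 := (Nat.ModEq.dvd_iff h6 dvd_rfl).mp h3
  exact hp.one_lt.ne' (Nat.dvd_one.mp h7)

theorem main (hd : 1 < d) (k : ℕ) (hk : 1 ≤ k) :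
    (¬ (d = 2 ∧ (Fintype.card R % 4 = 2 ∧ 1 < k ∧ (k % 6 = 5 ∨ k % 6 = 0 ∨ k % 6 = 1)) ∧
          ∃ e : R, e ≠ 0 ∧ e + e = 0 ∧ e * e = e) →
        ∑ A : Matrix (Fin d) (Fin d) R, pw A k = 0) ∧
    (∀ e : R, d = 2 → (Fintype.card R % 4 = 2 ∧ 1 < k ∧ (k % 6 = 5 ∨ k % 6 = 0 ∨ k % 6 = 1)) →
        e ≠ 0 → e + e = 0 → e * e = e →
        ∑ A : Matrix (Fin d) (Fin d) R, pw A k = Matrix.diagonal fun _ => e) := by
  obtain ⟨k, rfl⟩ : ∃ j, k = j + 1 := ⟨k - 1, by omega⟩
  constructor
  · intro h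
    refine eq_zero_of_proj _ fun p hp c m n' hn hn' hc hc' => ?_
    have : Fact p.Prime := ⟨hp⟩
    obtain ⟨h1, h2⟩ := comp_value p c m n' hn hn' hc hc' hd k
    by_cases hs : p = 2 ∧ d = 2 ∧ Fintype.card R % 4 = 2 ∧ ∃ e : R, e ≠ 0 ∧ e + e = 0 ∧ e * e = e
    · obtain ⟨hp2, hd2, hn4, e, he, h2e, hee⟩ := hs
      rw [h2 e hp2 hd2 hn4 he h2e hee, if_neg]
      intro hk'
      exact h ⟨hd2, ⟨hn4, by omega, by omega⟩, e, he, h2e, hee⟩
    · exact h1 hs
  · rintro e hd2 ⟨hn4, hk1, hk6⟩ he h2e hee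
    rw [← sub_eq_zero]
    refine eq_zero_of_proj _ fun p hp c m n' hn hn' hc hc' => ?_
    have : Fact p.Prime := ⟨hp⟩
    obtain ⟨h1, h2⟩ := comp_value p c m n' hn hn' hc hc' hd k
    rw [smul_sub, sub_eq_zero]
    have hdiag : ∀ x : R, c • e = x →
        c • (Matrix.diagonal fun _ : Fin d => e) = Matrix.diagonal fun _ => x := by
      intro x hx
      rw [← Matrix.diagonal_smul]
      congr 1
      funext _
      exact hx
    by_cases hp2 : p = 2
    · rw [h2 e hp2 hd2 hn4 he h2e hee, if_pos ⟨by omega, by omega⟩, hdiag]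
      subst hp2
      have hm : m ≠ 0 := by
        rintro rfl
        omega
      have hcodd : c % 2 = 1 := hc.of_dvd (dvd_pow_self 2 hm)
      rw [← Nat.div_add_mod c 2, hcodd, add_smul, one_smul, mul_comm, mul_smul, two_nsmul, h2e,
        smul_zero, zero_add]
    · rw [h1 fun h => hp2 h.1, hdiag 0, Matrix.diagonal_zero]
      have h3 : 2 ∣ p ^ m * n' := hn ▸ (by omega)
      have h4 : 2 ∣ n' := by
        refine ((Nat.Prime.dvd_mul Nat.prime_two).mp h3).resolve_left fun h => hp2 ?_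
        exact ((Nat.prime_dvd_prime_iff_eq Nat.prime_two hp).mp
          (Nat.prime_two.dvd_of_dvd_pow h)).symm
      obtain ⟨t, rfl⟩ := h4.trans hc'
      rw [mul_comm, mul_smul, two_nsmul, h2e, smul_zero]

end Pool.Agent.Lib.MP_0bd9b3_al
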