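import Pool.Agent.Lib.MP_0bd9b3_al.Nil

namespace Pool.Agent.Lib.MP_0bd9b3_al

open Finset

lemma sum_eq_zero_of_coset' {G H V : Type*} [AddCommGroup G] [Fintype G] [AddCommGroup H]
    [Fintype H] [AddCommMonoid V] (ι : H →+ G) (hι : Function.Injective ι) (f : G → V)
    (h : ∀ a, ∑ x : H, f (a + ι x) = 0) : ∑ a, f a = 0 := by
  classical
  refine sum_eq_zero_of_coset ι.range f fun a => ?_
  rw [← h a]
  symm
  exact Fintype.sum_equiv (AddMonoidHom.ofInjective hι).toEquiv _ _ fun x => rfl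

lemma sum_pi_eq_zero {ι G : Type*} [Fintype ι] [DecidableEq ι] [Nontrivial ι] [AddCommGroup G]
    [Fintype G] : ∑ x : ι → G, x = 0 := by
  funext a
  rw [Finset.sum_apply]
  obtain ⟨b, hb⟩ := exists_ne a
  refine sum_eq_zero_of_coset' (AddMonoidHom.single (fun _ : ι => G) b) ?_ (fun x : ι → G => x a) ?_
  · intro u v huv
    exact Pi.single_injective b huv
  · intro x
    have : ∀ u : G, (x + AddMonoidHom.single (fun _ : ι => G) b u) a = x a := by
      intro u
      simp [Pi.single_eq_of_ne hb.symm]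
    simp only [this, sum_const, card_univ]
    exact card_nsmul_eq_zero

variable {R : Type*} [NonUnitalRing R] [Fintype R] {d : ℕ}

theorem sum_zero_of_highChar (p : ℕ) [hp : Fact p.Prime] (m : ℕ)
    (hm : ∀ x : R, p ^ (m + 2) • x = 0) (y : R) (hy : p ^ (m + 1) • y ≠ 0) (hd : 1 < d) (k : ℕ) :
    ∑ A : Matrix (Fin d) (Fin d) R, pw A (k + 1) = 0 := by
  classical
  have : Nontrivial (Fin d) := Fin.nontrivial_iff_two_le.mpr hd
  set j := (m + 3) / 2 with hj
  let I : AddSubgroup R := (nsmulAddMonoidHom (p ^ j) : R →+ R).range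
  let ι : Matrix (Fin d) (Fin d) I →+ Matrix (Fin d) (Fin d) R :=
    AddMonoidHom.mapMatrix I.subtype
  have hι : Function.Injective ι := by
    intro u v huv
    ext a b
    exact congrFun (congrFun huv a) b
  have hc : ∀ x : Matrix (Fin d) (Fin d) R, (p ^ j * p ^ j) • x = 0 := by
    intro x
    ext a b
    obtain ⟨t, ht⟩ : ∃ t, j + j = t + (m + 2) := ⟨j + j - (m + 2), by omega⟩
    rw [Matrix.smul_apply, ← pow_add, ht, pow_add, mul_smul, hm, smul_zero]
    rfl
  have hcard : p ^ (m + 2) ∣ Fintype.card (Matrix (Fin d) (Fin d) I) := by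
    obtain ⟨t, ht⟩ : ∃ t, m + 1 = t + j := ⟨m + 1 - j, by omega⟩
    let z : I := ⟨p ^ j • y, y, rfl⟩
    have hz : addOrderOf z = p ^ (t + 1) := by
      refine addOrderOf_eq_prime_pow ?_ ?_
      · intro h
        apply hy
        have := congrArg Subtype.val h
        rw [ht, pow_add, mul_smul]
        exact this
      · apply Subtype.ext
        change p ^ (t + 1) • p ^ j • y = 0
        rw [← mul_smul, ← pow_add, show t + 1 + j = m + 2 by omega, hm]
    have h1 : p ^ (t + 1) ∣ Fintype.card I := hz ▸ addOrderOf_dvd_card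
    have h2 : Fintype.card (Matrix (Fin d) (Fin d) I) = Fintype.card I ^ (d * d) := by
      change Fintype.card (Fin d → Fin d → I) = _
      simp [pow_mul]
    rw [h2]
    refine Dvd.dvd.trans ?_ (pow_dvd_pow_of_dvd h1 _)
    rw [← pow_mul]
    apply pow_dvd_pow
    have : 4 ≤ d * d := by nlinarith
    calc m + 2 ≤ (t + 1) * 4 := by omega
      _ ≤ (t + 1) * (d * d) := Nat.mul_le_mul_left _ this
  refine sum_eq_zero_of_coset' ι hι _ fun A => ?_
  obtain ⟨D, hD⟩ := pw_add_smul (p ^ j) hc A k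
  have h1 : ∀ x, pw (A + ι x) (k + 1) = pw A (k + 1) + D (ι x) := by
    intro x
    have : ∃ Y : Matrix (Fin d) (Fin d) R, ι x = p ^ j • Y := by
      choose Y hY using fun a b => (x a b).2
      exact ⟨Matrix.of Y, by ext a b; exact (hY a b).symm⟩
    obtain ⟨Y, hY⟩ := this
    rw [hY, hD]
  simp only [h1, sum_add_distrib, sum_const, card_univ]
  rw [← map_sum, ← map_sum]
  have h2 : ∑ x : Matrix (Fin d) (Fin d) I, x = 0 := sum_pi_eq_zero (ι := Fin d) (G := Fin d → I)
  obtain ⟨t, ht⟩ := hcard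
  rw [h2, map_zero, map_zero, add_zero, ht, mul_comm, mul_smul]
  have : p ^ (m + 2) • pw A (k + 1) = 0 := by
    ext a b
    rw [Matrix.smul_apply, hm]
    rfl
  rw [this, smul_zero]

theorem entry_zero_of_single (p : ℕ) [Fact p.Prime] (hp : ∀ x : R, p • x = 0) {x : R}
    (hx : x ≠ 0) (i j a b : Fin d) (hia : i ≠ a) (hjb : j ≠ b) (hab : a = b → x * x = 0) (k : ℕ) :
    (∑ A : Matrix (Fin d) (Fin d) R, pw A (k + 1)) i j = 0 := by
  classical
  rw [Matrix.sum_apply]
  refine sum_eq_zero_of_nil (M := Matrix (Fin d) (Fin d) R) p ?_ (N := Matrix.single a b x) ?_ ?_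
    (Matrix.entryAddMonoidHom R i j) ?_ ?_ ?_ k
  · intro A
    ext u v
    rw [Matrix.smul_apply, hp]
    rfl
  · intro h
    have := congrFun (congrFun h a) b
    rw [Matrix.single_apply_same] at this
    exact hx this
  · by_cases h : a = b
    · subst h
      rw [Matrix.single_mul_single_same, hab rfl, Matrix.single_zero]
    · exact Matrix.single_mul_single_of_ne _ _ _ _ (Ne.symm h) _
  · simp [Matrix.single_apply_of_row_ne hia.symm]
  · intro A
    simp [Matrix.single_mul_apply_of_ne _ _ _ _ _ hia]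
  · intro A
    simp [Matrix.mul_single_apply_of_ne _ _ _ _ _ hjb]

end Pool.Agent.Lib.MP_0bd9b3_al
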