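import Pool.Agent.Lib.MP_0bd9b3_al.Basic

namespace Pool.Agent.Lib.MP_0bd9b3_al

open Finset

variable {M : Type*} [NonUnitalRing M]

/-- Conjugation by `1 + N`. -/
def cj (N A : M) : M := A + N * A - A * N - N * (A * N)

lemma cj_mul {N : M} (hN : N * N = 0) (A B : M) : cj N (A * B) = cj N A * cj N B := by
  have h1 : ∀ x : M, N * (N * x) = 0 := fun x => by rw [← mul_assoc, hN, zero_mul]
  simp only [cj, mul_add, add_mul, mul_sub, sub_mul, mul_assoc, h1, mul_zero]
  abel

lemma cj_pw {N : M} (hN : N * N = 0) (A : M) : ∀ k : ℕ, pw (cj N A) k = cj N (pw A k)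
  | 0 => by simp [pw, cj]
  | 1 => rfl
  | (n + 2) => by rw [pw_succ, pw_succ, cj_mul hN, cj_pw hN A (n + 1)]

lemma cj_iterate {N : M} (hN : N * N = 0) (A : M) (j : ℕ) :
    (cj N)^[j] A = A + j • (N * A) - j • (A * N) - (j * j) • (N * (A * N)) := by
  have h1 : ∀ x : M, N * (N * x) = 0 := fun x => by rw [← mul_assoc, hN, zero_mul]
  induction j with
  | zero => simp
  | succ j ih =>
    rw [Function.iterate_succ_apply', ih]
    simp only [cj, mul_add, add_mul, mul_sub, sub_mul, mul_assoc, hN, h1, mul_zero, smul_zero,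
      mul_smul_comm, smul_mul_assoc, add_smul, one_smul, mul_one, one_mul]
    abel

lemma comm_of_cj_comm {N : M} (hN : N * N = 0) {A : M} (h : N * cj N A = cj N A * N) :
    N * A = A * N := by
  have h1 : ∀ x : M, N * (N * x) = 0 := fun x => by rw [← mul_assoc, hN, zero_mul]
  simp only [cj, mul_add, add_mul, mul_sub, sub_mul, mul_assoc, hN, h1, mul_zero, add_zero,
    sub_zero] at h
  have h2 := congrArg (fun x => N * x) h
  simp only [mul_add, mul_sub, h1, sub_zero, add_zero] at h2
  rw [← h2, sub_zero, add_zero] at h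
  exact h

lemma comm_of_cj_eq {N : M} (hN : N * N = 0) {A : M} (h : cj N A = A) : N * A = A * N := by
  have h1 : ∀ x : M, N * (N * x) = 0 := fun x => by rw [← mul_assoc, hN, zero_mul]
  have h2 := congrArg (fun x => N * x) h
  simp only [cj, mul_add, mul_sub, h1, add_zero, sub_zero, sub_eq_self] at h2
  simp only [cj, h2, sub_zero] at h
  have : N * A - A * N = 0 := by
    have h3 : A + N * A - A * N - A = 0 := by rw [h, sub_self]
    rw [← h3]; abel
  exact sub_eq_zero.mp this

lemma pw_add_of_comm {N : M} (hN : N * N = 0) {A : M} (h : N * A = A * N) (k : ℕ) :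
    ∃ Y, pw (A + N) (k + 1) = pw A (k + 1) + Y ∧ (Y = N ∨ ∃ Z, Y = Z * N) := by
  induction k with
  | zero => exact ⟨N, rfl, Or.inl rfl⟩
  | succ k ih =>
    obtain ⟨Y, hY, hY'⟩ := ih
    refine ⟨pw A (k + 1) * N + Y * A + Y * N, ?_, Or.inr ?_⟩
    · rw [pw_succ, pw_succ, hY]
      simp only [mul_add, add_mul]
      abel
    · rcases hY' with rfl | ⟨Z, rfl⟩
      · exact ⟨pw A (k + 1) + A, by rw [hN, h, add_mul, add_zero]⟩
      · refine ⟨pw A (k + 1) + Z * A, ?_⟩
        rw [mul_assoc Z N N, hN, mul_zero, add_zero, mul_assoc Z N A, h, add_mul, mul_assoc]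

theorem sum_eq_zero_of_nil {V : Type*} [AddCommGroup V] [Fintype M] (p : ℕ) [Fact p.Prime]
    (hp : ∀ x : M, p • x = 0) {N : M} (hN0 : N ≠ 0) (hN : N * N = 0) (l : M →+ V)
    (hl : l N = 0) (hl1 : ∀ x, l (N * x) = 0) (hl2 : ∀ x, l (x * N) = 0) (k : ℕ) :
    ∑ A : M, l (pw A (k + 1)) = 0 := by
  classical
  let τ : M → M := fun A => if N * A = A * N then A + N else cj N A
  have hc : ∀ A, N * A = A * N → ∀ j : ℕ, τ^[j] A = A + j • N := by
    intro A hA j
    induction j with
    | zero => simp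
    | succ j ih =>
      rw [Function.iterate_succ_apply', ih]
      have : N * (A + j • N) = (A + j • N) * N := by
        simp only [mul_add, add_mul, mul_smul_comm, smul_mul_assoc, hA]
      simp only [τ, if_pos this, add_smul, one_smul, add_assoc]
  have hn : ∀ A, ¬ N * A = A * N → ∀ j : ℕ,
      τ^[j] A = (cj N)^[j] A ∧ ¬ N * (cj N)^[j] A = (cj N)^[j] A * N := by
    intro A hA j
    induction j with
    | zero => exact ⟨rfl, hA⟩
    | succ j ih =>
      rw [Function.iterate_succ_apply', Function.iterate_succ_apply', ih.1]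
      refine ⟨?_, fun h => ih.2 (comm_of_cj_comm hN h)⟩
      simp only [τ, if_neg ih.2]
  refine sum_eq_zero_of_free p τ ?_ ?_ _ ?_ ?_
  · intro A
    by_cases hA : N * A = A * N
    · rw [hc A hA, hp, add_zero]
    · rw [(hn A hA p).1, cj_iterate hN, hp, hp, mul_smul, hp]
      simp
  · intro A
    by_cases hA : N * A = A * N
    · simp only [τ, if_pos hA]
      intro h
      exact hN0 (by simpa using h)
    · simp only [τ, if_neg hA]
      exact fun h => hA (comm_of_cj_eq hN h)
  · intro A
    by_cases hA : N * A = A * N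
    · simp only [τ, if_pos hA]
      obtain ⟨Y, hY, hY'⟩ := pw_add_of_comm hN hA k
      rw [hY, map_add]
      rcases hY' with rfl | ⟨Z, rfl⟩
      · rw [hl, add_zero]
      · rw [hl2, add_zero]
    · simp only [τ, if_neg hA]
      rw [cj_pw hN]
      simp only [cj, map_add, map_sub, hl1, hl2, add_zero, sub_zero]
  · intro A
    rw [← map_nsmul, hp, map_zero]

/-- A ring homomorphism with a non-zero kernel element kills the power sum in characteristic `p`. -/
theorem sum_eq_zero_of_ker {M' : Type*} [NonUnitalRing M'] [Fintype M] (p : ℕ) [Fact p.Prime]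
    (hp : ∀ x : M, p • x = 0) (φ : M →ₙ+* M') {Z : M} (hZ0 : Z ≠ 0) (hZ : φ Z = 0) (k : ℕ) :
    φ (∑ A : M, pw A k) = 0 := by
  rw [map_sum]
  refine sum_eq_zero_of_free p (fun A => A + Z) ?_ ?_ _ ?_ ?_
  · intro A
    rw [add_right_iterate_apply, hp, add_zero]
  · intro A h
    exact hZ0 (by simpa using h)
  · intro A
    rw [map_pw, map_pw, map_add, hZ, add_zero]
  · intro A
    rw [← map_nsmul, hp, map_zero]

/-- First order expansion along `c • Y` when `c * c` kills the ring. -/
lemma pw_add_smul (c : ℕ) (hc : ∀ x : M, (c * c) • x = 0) (A : M) (k : ℕ) :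
    ∃ D : M →+ M, ∀ Y, pw (A + c • Y) (k + 1) = pw A (k + 1) + D (c • Y) := by
  have : ∃ D : M →+ M, ∀ Y, pw (A + c • Y) (k + 1) = pw A (k + 1) + D (c • Y) := by
    induction k with
    | zero => exact ⟨AddMonoidHom.id M, fun Y => rfl⟩
    | succ k ih =>
      obtain ⟨D, hD⟩ := ih
      refine ⟨AddMonoidHom.mulLeft (pw A (k + 1)) + (AddMonoidHom.mulRight A).comp D, fun Y => ?_⟩
      rw [pw_succ, pw_succ, hD]
      have h0 : D (c • Y) * (c • Y) = 0 := by
        rw [map_nsmul, smul_mul_assoc, mul_smul_comm, smul_smul, hc]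
      simp only [mul_add, add_mul, h0, AddMonoidHom.add_apply, AddMonoidHom.coe_mulLeft,
        AddMonoidHom.coe_comp, AddMonoidHom.coe_mulRight, Function.comp_apply]
      abel
  exact this

end Pool.Agent.Lib.MP_0bd9b3_al
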