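import Pool.Agent.Lib.MP_0bd9b3_al.Field

namespace Pool.Agent.Lib.MP_0bd9b3_al

open Finset

variable {R : Type*} [NonUnitalRing R] [Fintype R] {d : ℕ}

omit [Fintype R] in
lemma reduced_mid (hR : ∀ x : R, x * x = 0 → x = 0) {x y : R} (h : x * y = 0) (r : R) :
    x * (r * y) = 0 := by
  have hs : ∀ a b : R, a * b = 0 → b * a = 0 := by
    intro a b hab
    apply hR
    rw [mul_assoc, ← mul_assoc a, hab, zero_mul, mul_zero]
  rw [← mul_assoc]
  apply hs
  rw [← mul_assoc, hs x y h, zero_mul]

lemma mul_entry_zero (p : ℕ) [Fact p.Prime] (hp : ∀ x : R, p • x = 0)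
    (hR : ∀ x : R, x * x = 0 → x = 0) {x y : R} (hy : y ≠ 0) (h : x * y = 0) (i j : Fin d)
    (k : ℕ) : x * (∑ A : Matrix (Fin d) (Fin d) R, pw A (k + 1)) i j = 0 := by
  classical
  rw [Matrix.sum_apply, mul_sum]
  let Z : Matrix (Fin d) (Fin d) R := Matrix.of fun _ _ => y
  refine sum_eq_zero_of_free p (fun A => A + Z) ?_ ?_ _ ?_ ?_
  · intro A
    rw [add_right_iterate_apply]
    ext a b
    rw [Matrix.add_apply, Matrix.smul_apply, hp, add_zero]
  · intro A hA
    have := congrFun (congrFun hA i) i
    apply hy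
    simpa [Z] using this
  · intro A
    have : ∀ n : ℕ, ∀ a b, x * (pw (A + Z) (n + 1) - pw A (n + 1)) a b = 0 := by
      intro n
      induction n with
      | zero => intro a b; simpa [Z] using h
      | succ n ih =>
        intro a b
        have e : pw (A + Z) (n + 2) - pw A (n + 2)
            = (pw (A + Z) (n + 1) - pw A (n + 1)) * (A + Z) + pw A (n + 1) * Z := by
          rw [pw_succ, pw_succ]
          simp only [mul_add, sub_mul]
          abel
        rw [e, Matrix.add_apply, mul_add, Matrix.mul_apply, Matrix.mul_apply, mul_sum, mul_sum,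
          sum_eq_zero, sum_eq_zero, add_zero]
        · intro c _
          exact reduced_mid hR h _
        · intro c _
          rw [← mul_assoc, ih, zero_mul]
    have h2 := this k i j
    rwa [Matrix.sub_apply, mul_sub, sub_eq_zero] at h2
  · intro A
    exact hp _

lemma domain_diag_zero (hR : ∀ x y : R, x * y = 0 → x = 0 ∨ y = 0) {x : R} (hx : x ≠ 0)
    (hc : Fintype.card R ≠ 2) (k : ℕ) (i : Fin 2) :
    (∑ A : Matrix (Fin 2) (Fin 2) R, pw A (k + 1)) i i = 0 := by
  have hinj : Function.Injective fun y : R => x * y := by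
    intro a b hab
    have : x * (a - b) = 0 := by rw [mul_sub]; exact sub_eq_zero.mpr hab
    exact sub_eq_zero.mp ((hR _ _ this).resolve_left hx)
  obtain ⟨ε, hε⟩ := (Finite.injective_iff_surjective.mp hinj) x
  have hε' : x * ε = x := hε
  have h1 : ∀ y : R, ε * y = y := by
    intro y
    have : x * (ε * y - y) = 0 := by rw [mul_sub, ← mul_assoc, hε', sub_self]
    exact sub_eq_zero.mp ((hR _ _ this).resolve_left hx)
  have h2 : ∀ y : R, y * ε = y := by
    intro y
    have : (y * ε - y) * x = 0 := by rw [sub_mul, mul_assoc, h1, sub_self]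
    exact sub_eq_zero.mp ((hR _ _ this).resolve_right hx)
  let : Ring R :=
    { (inferInstance : NonUnitalRing R) with
      one := ε
      one_mul := h1
      mul_one := h2 }
  have : Nontrivial R := ⟨x, 0, hx⟩
  have : NoZeroDivisors R := ⟨fun {a b} => hR a b⟩
  have : IsDomain R := NoZeroDivisors.to_isDomain R
  let : Field R := (Finite.isDomain_to_isField R).toField
  have := field_diag_zero (F := R) hc (k + 1) i
  simp only [← pw_eq_pow] at this
  exact this

/-- Rings killed by a prime power. -/
theorem pring_zero (p : ℕ) [hp : Fact p.Prime] (m : ℕ) (hm : ∀ x : R, p ^ m • x = 0) (hd : 1 < d)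
    (h : ¬ (d = 2 ∧ Fintype.card R = 2 ∧ ∀ x : R, x * x = 0 → x = 0)) (k : ℕ) :
    ∑ A : Matrix (Fin d) (Fin d) R, pw A (k + 1) = 0 := by
  classical
  by_cases h0 : ∀ x : R, x = 0
  · ext a b
    exact h0 _
  push Not at h0
  obtain ⟨x, hx⟩ := h0
  by_cases h1 : ∀ x : R, p • x = 0
  swap
  · have hex : ∃ m, ∀ x : R, p ^ m • x = 0 := ⟨m, hm⟩
    have hs := Nat.find_spec hex
    have hne0 : Nat.find hex ≠ 0 := by
      intro h
      rw [h] at hs
      exact hx (by simpa using hs x)
    have hne1 : Nat.find hex ≠ 1 := by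
      intro h
      rw [h] at hs
      exact h1 (by simpa using hs)
    obtain ⟨t, ht⟩ : ∃ t, Nat.find hex = t + 2 := ⟨Nat.find hex - 2, by omega⟩
    have hmin := Nat.find_min hex (m := t + 1) (by omega)
    push Not at hmin
    obtain ⟨y, hy⟩ := hmin
    rw [ht] at hs
    exact sum_zero_of_highChar p t hs y hy hd k
  ext i j
  rw [Matrix.zero_apply]
  by_cases hij : i = j
  swap
  · exact entry_zero_of_single p h1 hx i j j i hij (Ne.symm hij) (fun h => absurd h.symm hij) k
  subst hij
  by_cases hd2 : d = 2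
  swap
  · have h3 : 3 ≤ d := by omega
    have : ∃ a b : Fin d, a ≠ b ∧ i ≠ a ∧ i ≠ b := by
      have hc : 1 < (univ.erase i).card := by
        rw [card_erase_of_mem (mem_univ i), card_univ, Fintype.card_fin]
        omega
      obtain ⟨a, ha, b, hb, hab⟩ := one_lt_card.mp hc
      exact ⟨a, b, hab, (ne_of_mem_erase ha).symm, (ne_of_mem_erase hb).symm⟩
    obtain ⟨a, b, hab, hia, hib⟩ := this
    exact entry_zero_of_single p h1 hx i i a b hia hib (fun h => absurd h hab) k
  subst hd2
  by_cases hred : ∀ x : R, x * x = 0 → x = 0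
  swap
  · push Not at hred
    obtain ⟨z, hz, hz0⟩ := hred
    obtain ⟨a, ha⟩ := exists_ne i
    exact entry_zero_of_single p h1 hz0 i i a a ha.symm ha.symm (fun _ => hz) k
  have hc : Fintype.card R ≠ 2 := fun hc => h ⟨rfl, hc, hred⟩
  by_cases hdom : ∀ x y : R, x * y = 0 → x = 0 ∨ y = 0
  · exact domain_diag_zero hdom hx hc k i
  push Not at hdom
  obtain ⟨u, v, huv, hu, hv⟩ := hdom
  have h2 := mul_entry_zero p h1 hred hv huv i i k
  set s := (∑ A : Matrix (Fin 2) (Fin 2) R, pw A (k + 1)) i i with hs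
  have h3 : s * u = 0 := by
    apply hred
    rw [mul_assoc, ← mul_assoc u, h2, zero_mul, mul_zero]
  exact hred s (mul_entry_zero p h1 hred hu h3 i i k)

/-- The entrywise map of matrix rings. -/
def mapM {R' : Type*} [NonUnitalRing R'] (φ : R →ₙ+* R') (d : ℕ) :
    Matrix (Fin d) (Fin d) R →ₙ+* Matrix (Fin d) (Fin d) R' where
  toFun A := A.map φ
  map_mul' _ _ := Matrix.map_mul
  map_zero' := by ext; simp
  map_add' _ _ := by ext; simp

lemma map_sum_of_surj {M M' : Type*} [NonUnitalRing M] [NonUnitalRing M'] [Fintype M] [Fintype M']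
    (φ : M →ₙ+* M') (hφ : Function.Surjective φ) (k : ℕ) :
    ∃ c : ℕ, Fintype.card M = Fintype.card M' * c ∧ φ (∑ A, pw A k) = c • ∑ B : M', pw B k := by
  classical
  have hf : ∀ B : M', (univ.filter fun A => φ A = B).card = (univ.filter fun A => φ A = 0).card :=
    fun B => AddMonoidHom.card_fiber_eq_of_mem_range φ (hφ B) (hφ 0)
  refine ⟨(univ.filter fun A => φ A = 0).card, ?_, ?_⟩
  · rw [← card_univ, card_eq_sum_card_fiberwise (f := φ) (t := univ) (fun _ _ => mem_univ _)]
    simp only [hf, sum_const, card_univ, smul_eq_mul]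
  · rw [map_sum, ← Finset.sum_fiberwise (s := univ) (g := φ), smul_sum]
    refine sum_congr rfl fun B _ => ?_
    rw [← hf B, ← sum_const]
    refine sum_congr rfl fun A hA => ?_
    rw [map_pw, (mem_filter.mp hA).2]

/-- The ring with two elements and an idempotent. -/
theorem two_elements (hc : Fintype.card R = 2) {e : R} (he : e ≠ 0) (hee : e * e = e) (k : ℕ) :
    ∑ A : Matrix (Fin 2) (Fin 2) R, pw A (k + 1) =
      if 0 < k ∧ (k % 6 = 4 ∨ k % 6 = 5 ∨ k % 6 = 0) then Matrix.diagonal fun _ => e else 0 := by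
  classical
  have h2 : e + e = 0 := by
    have : Fintype.card R • e = 0 := card_nsmul_eq_zero
    rwa [hc, two_nsmul] at this
  have hz : ∀ a : ZMod 2, a = 0 ∨ a = 1 := by decide
  have h11 : (1 : ZMod 2) + 1 = 0 := by decide
  let φ : ZMod 2 →ₙ+* R :=
    { toFun := fun a => if a = 0 then 0 else e
      map_mul' := by
        intro a b
        rcases hz a with rfl | rfl <;> rcases hz b with rfl | rfl <;> simp [hee]
      map_zero' := by simp
      map_add' := by
        intro a b
        rcases hz a with rfl | rfl <;> rcases hz b with rfl | rfl <;> simp [h11, h2] }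
  have hinj : Function.Injective φ := by
    intro a b hab
    rcases hz a with rfl | rfl <;> rcases hz b with rfl | rfl
    · rfl
    · exact absurd (show (0 : R) = e from hab).symm he
    · exact absurd (show e = (0 : R) from hab) he
    · rfl
  have hsurj : Function.Surjective φ :=
    ((Fintype.bijective_iff_injective_and_card φ).mpr ⟨hinj, by rw [hc]; rfl⟩).2
  have hsurj' : Function.Surjective (mapM φ 2) := by
    intro B
    choose A hA using fun a b => hsurj (B a b)
    exact ⟨Matrix.of A, by ext a b; exact hA a b⟩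
  obtain ⟨c, hc1, hc2⟩ := map_sum_of_surj (mapM φ 2) hsurj' (k + 1)
  have hc' : c = 1 := by
    have e1 : Fintype.card (Matrix (Fin 2) (Fin 2) (ZMod 2)) = 16 := by
      change Fintype.card (Fin 2 → Fin 2 → ZMod 2) = _
      simp
    have e2 : Fintype.card (Matrix (Fin 2) (Fin 2) R) = 16 := by
      change Fintype.card (Fin 2 → Fin 2 → R) = _
      simp [hc]
    rw [e1, e2] at hc1
    omega
  rw [hc', one_smul] at hc2
  rw [← hc2]
  simp only [pw_eq_pow]
  rw [zmod_two]
  split_ifs
  · ext a b
    fin_cases a <;> fin_cases b <;> rfl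
  · exact map_zero _

end Pool.Agent.Lib.MP_0bd9b3_al
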