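import Pool.Agent.Lib.MP_0bd9b3_al.WordNil

namespace Pool.Agent.Lib.MP_0bd9b3_al

open Finset FreeSemigroup

variable {ι : Type*} [Fintype ι] [DecidableEq ι]

section ring

variable {R : Type*} [NonUnitalRing R] [Fintype R] {d : ℕ}

theorem wsum_zero_of_highChar (p : ℕ) [hp : Fact p.Prime] (m : ℕ)
    (hm : ∀ x : R, p ^ (m + 2) • x = 0) (y : R) (hy : p ^ (m + 1) • y ≠ 0) (hd : 1 < d)
    (w : FreeSemigroup ι) :
    ∑ A : ι → Matrix (Fin d) (Fin d) R, lift A w = 0 := by
  classical
  have : Nontrivial (Fin d) := Fin.nontrivial_iff_two_le.mpr hd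
  set j := (m + 3) / 2 with hj
  let I : AddSubgroup R := (nsmulAddMonoidHom (p ^ j) : R →+ R).range
  let κ : Matrix (Fin d) (Fin d) I →+ Matrix (Fin d) (Fin d) R :=
    AddMonoidHom.mapMatrix I.subtype
  let κ' : Matrix (Fin d) (Fin d) I →+ (ι → Matrix (Fin d) (Fin d) R) :=
    { toFun := fun x _ => κ x
      map_zero' := by funext _; exact map_zero κ
      map_add' := fun x y => by funext _; exact map_add κ x y }
  have hκ : Function.Injective κ' := by
    intro u v huv
    ext a b
    exact congrFun (congrFun (congrFun huv w.head) a) b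
  have hc : ∀ x : Matrix (Fin d) (Fin d) R, (p ^ j * p ^ j) • x = 0 := by
    intro x
    ext a b
    obtain ⟨t, ht⟩ : ∃ t, j + j = t + (m + 2) := ⟨j + j - (m + 2), by omega⟩
    rw [Matrix.smul_apply, ← pow_add, ht, pow_add, mul_smul, hm, smul_zero]
    rfl
  have hcard : p ^ (m + 2) ∣ Fintype.card (Matrix (Fin d) (Fin d) I) := by
    obtain ⟨t, ht⟩ : ∃ t, m + 1 = t + j := ⟨m + 1 - j, by omega⟩
    let z : I := ⟨p ^ j • y, y, rfl⟩
    have hz : addOrderOf z = p ^ (t + 1) := by
      refine addOrderOf_eq_prime_pow ?_ ?_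
      · intro h
        apply hy
        have := congrArg Subtype.val h
        rw [ht, pow_add, mul_smul]
        exact this
      · apply Subtype.ext
        change p ^ (t + 1) • p ^ j • y = 0
        rw [← mul_smul, ← pow_add, show t + 1 + j = m + 2 by omega, hm]
    have h1 : p ^ (t + 1) ∣ Fintype.card I := hz ▸ addOrderOf_dvd_card
    have h2 : Fintype.card (Matrix (Fin d) (Fin d) I) = Fintype.card I ^ (d * d) := by
      change Fintype.card (Fin d → Fin d → I) = _
      simp [pow_mul]
    rw [h2]
    refine Dvd.dvd.trans ?_ (pow_dvd_pow_of_dvd h1 _)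
    rw [← pow_mul]
    apply pow_dvd_pow
    have : 4 ≤ d * d := by nlinarith
    calc m + 2 ≤ (t + 1) * 4 := by omega
      _ ≤ (t + 1) * (d * d) := Nat.mul_le_mul_left _ this
  refine sum_eq_zero_of_coset' κ' hκ _ fun A => ?_
  obtain ⟨D, hD⟩ := lift_add_smul (p ^ j) hc A w
  have h1 : ∀ x, lift (A + κ' x) w = lift A w + D (κ x) := by
    intro x
    have : ∃ Y : Matrix (Fin d) (Fin d) R, κ x = p ^ j • Y := by
      choose Y hY using fun a b => (x a b).2
      exact ⟨Matrix.of Y, by ext a b; exact (hY a b).symm⟩
    obtain ⟨Y, hY⟩ := this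
    have e : A + κ' x = fun i => A i + p ^ j • Y := by
      funext i
      rw [← hY]
      rfl
    rw [e, hY, hD]
  simp only [h1, sum_add_distrib, sum_const, card_univ]
  rw [← map_sum, ← map_sum]
  have h2 : ∑ x : Matrix (Fin d) (Fin d) I, x = 0 := sum_pi_eq_zero (ι := Fin d) (G := Fin d → I)
  obtain ⟨t, ht⟩ := hcard
  rw [h2, map_zero, map_zero, add_zero, ht, mul_comm, mul_smul]
  have : p ^ (m + 2) • lift A w = 0 := by
    ext a b
    rw [Matrix.smul_apply, hm]
    rfl
  rw [this, smul_zero]

theorem wentry_zero_of_single (p : ℕ) [Fact p.Prime] (hp : ∀ x : R, p • x = 0) {x : R}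
    (hx : x ≠ 0) (i j a b : Fin d) (hia : i ≠ a) (hjb : j ≠ b) (hab : a = b → x * x = 0)
    (w : FreeSemigroup ι) :
    (∑ A : ι → Matrix (Fin d) (Fin d) R, lift A w) i j = 0 := by
  classical
  rw [Matrix.sum_apply]
  refine wsum_eq_zero_of_nil (M := Matrix (Fin d) (Fin d) R) p ?_ (N := Matrix.single a b x) ?_ ?_
    (Matrix.entryAddMonoidHom R i j) ?_ ?_ ?_ w
  · intro A
    ext u v
    rw [Matrix.smul_apply, hp]
    rfl
  · intro h
    have := congrFun (congrFun h a) b
    rw [Matrix.single_apply_same] at this
    exact hx this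
  · by_cases h : a = b
    · subst h
      rw [Matrix.single_mul_single_same, hab rfl, Matrix.single_zero]
    · exact Matrix.single_mul_single_of_ne _ _ _ _ (Ne.symm h) _
  · simp [Matrix.single_apply_of_row_ne hia.symm]
  · intro A
    simp [Matrix.single_mul_apply_of_ne _ _ _ _ _ hia]
  · intro A
    simp [Matrix.mul_single_apply_of_ne _ _ _ _ _ hjb]

lemma wmul_entry_zero (p : ℕ) [Fact p.Prime] (hp : ∀ x : R, p • x = 0)
    (hR : ∀ x : R, x * x = 0 → x = 0) {x y : R} (hy : y ≠ 0) (h : x * y = 0) (i j : Fin d)
    (w : FreeSemigroup ι) : x * (∑ A : ι → Matrix (Fin d) (Fin d) R, lift A w) i j = 0 := by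
  classical
  rw [Matrix.sum_apply, mul_sum]
  let Z : Matrix (Fin d) (Fin d) R := Matrix.of fun _ _ => y
  refine sum_eq_zero_of_free p (fun A => A + fun _ => Z) ?_ ?_ _ ?_ ?_
  · intro A
    rw [add_right_iterate_apply]
    ext u a b
    rw [Pi.add_apply, Pi.smul_apply, Matrix.add_apply, Matrix.smul_apply, hp, add_zero]
  · intro A hA
    have := congrFun (congrFun (congrFun hA w.head) i) i
    apply hy
    simpa [Z] using this
  · intro A
    have : ∀ v : FreeSemigroup ι, ∀ a b,
        x * (lift (A + fun _ => Z) v - lift A v) a b = 0 := by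
      intro v
      induction v with
      | ih1 u => intro a b; simpa [Z] using h
      | ih2 u v _ ih =>
        intro a b
        have e : lift (A + fun _ => Z) (of u * v) - lift A (of u * v)
            = A u * (lift (A + fun _ => Z) v - lift A v) + Z * lift (A + fun _ => Z) v := by
          rw [lift_of_mul, lift_of_mul, Pi.add_apply]
          simp only [add_mul, mul_sub]
          abel
        rw [e, Matrix.add_apply, mul_add, Matrix.mul_apply, Matrix.mul_apply, mul_sum, mul_sum,
          sum_eq_zero, sum_eq_zero, add_zero]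
        · intro c _
          rw [← mul_assoc]
          change x * y * _ = 0
          rw [h, zero_mul]
        · intro c _
          exact reduced_mid hR (ih c b) _
    have h2 := this w i j
    rwa [Matrix.sub_apply, mul_sub, sub_eq_zero] at h2
  · intro A
    exact hp _

end ring

/-- The field step: the additive group of the field acts freely on tuples of matrices. -/
theorem wfield_diag_zero {F : Type*} [Field F] [Fintype F] {d : ℕ} (hF : Fintype.card F ≠ 2)
    (w : FreeSemigroup ι) (i j : Fin d) (hij : i ≠ j) :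
    (∑ A : ι → Matrix (Fin d) (Fin d) F, lift A w) i i = 0 := by
  classical
  have hsum : ∑ a : F, a = 0 := by
    have h1 : 1 < Fintype.card F := Fintype.one_lt_card
    simpa using FiniteField.sum_pow_lt_card_sub_one F 1 (by omega)
  let E : Matrix (Fin d) (Fin d) F := Matrix.single i j 1
  have hE : E * E = 0 := Matrix.single_mul_single_of_ne _ _ _ _ (Ne.symm hij) _
  have hE2 : ∀ s t : F, (s • E) * (t • E) = 0 := by
    intro s t
    rw [smul_mul_assoc, mul_smul_comm, hE, smul_zero, smul_zero]
  have hE0 : ∀ s : F, s • E = 0 → s = 0 := by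
    intro s hs
    have := congrFun (congrFun hs i) j
    simpa [E] using this
  have hcanc : ∀ (s : F) (B : Matrix (Fin d) (Fin d) F), s ≠ 0 →
      (s • E) * B = B * (s • E) → E * B = B * E := by
    intro s B hs h
    rw [smul_mul_assoc, mul_smul_comm] at h
    exact smul_right_injective _ hs h
  have hsm : ∀ (s : F) (B : Matrix (Fin d) (Fin d) F),
      E * B = B * E → (s • E) * B = B * (s • E) := by
    intro s B h
    rw [smul_mul_assoc, mul_smul_comm, h]
  have hcj0 : ∀ B : Matrix (Fin d) (Fin d) F, cj ((0 : F) • E) B = B := by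
    intro B
    simp [cj]
  let act : F → (ι → Matrix (Fin d) (Fin d) F) → (ι → Matrix (Fin d) (Fin d) F) := fun t A =>
    if ∀ u, E * A u = A u * E then fun u => A u + t • E else fun u => cj (t • E) (A u)
  have hnc : ∀ (t : F) (A : ι → Matrix (Fin d) (Fin d) F), (¬ ∀ u, E * A u = A u * E) →
      ¬ ∀ u, E * cj (t • E) (A u) = cj (t • E) (A u) * E := by
    intro t A hA h
    apply hA
    intro u
    by_cases ht : t = 0
    · have := h u
      rwa [ht, hcj0] at this
    · exact hcanc t _ ht (comm_of_cj_comm (hE2 t t) (hsm t _ (h u)))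
  rw [Matrix.sum_apply]
  refine sum_eq_zero_of_free_action act ?_ ?_ ?_ (fun A => lift A w i i) ?_
  · intro A
    by_cases hA : ∀ u, E * A u = A u * E
    · simp only [act, if_pos hA, zero_smul, add_zero]
    · simp only [act, if_neg hA, hcj0]
  · intro s t A
    by_cases hA : ∀ u, E * A u = A u * E
    · have h1 : ∀ u, E * (A u + t • E) = (A u + t • E) * E := by
        intro u
        rw [mul_add, add_mul, hA u, smul_mul_assoc, mul_smul_comm]
      simp only [act, if_pos hA, if_pos h1]
      funext u
      rw [add_smul]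
      abel
    · simp only [act, if_neg hA, if_neg (hnc t A hA)]
      funext u
      rw [cj_cj (hE2 s t) (hE2 t s), add_smul]
  · intro s A h
    by_cases hA : ∀ u, E * A u = A u * E
    · simp only [act, if_pos hA] at h
      exact hE0 s (by simpa using congrFun h w.head)
    · simp only [act, if_neg hA] at h
      by_contra hs
      exact hA fun u => hcanc s _ hs (comm_of_cj_eq (hE2 s s) (congrFun h u))
  · intro A
    have hr : ∀ (t : F) (B : Matrix (Fin d) (Fin d) F), (B * (t • E)) i i = 0 := by
      intro t B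
      simp [E, Matrix.mul_single_apply_of_ne _ _ _ _ _ hij]
    by_cases hA : ∀ u, E * A u = A u * E
    · have h1 : ∀ t : F, lift (act t A) w i i = lift A w i i := by
        intro t
        simp only [act, if_pos hA]
        obtain ⟨Y, hY, hY'⟩ := lift_add_of_comm (hE2 t t) (fun u => hsm t _ (hA u)) w
        rw [hY, Matrix.add_apply]
        rcases hY' with rfl | ⟨Z, rfl⟩
        · simp [E, Matrix.single_apply_of_col_ne _ _ hij.symm]
        · rw [hr, add_zero]
      simp only [h1, sum_const, card_univ]
      exact card_nsmul_eq_zero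
    · have h1 : ∀ t : F, lift (act t A) w i i = lift A w i i + t * (E * lift A w) i i := by
        intro t
        simp only [act, if_neg hA]
        rw [cj_lift (hE2 t t), cj, ← mul_assoc, Matrix.sub_apply, Matrix.sub_apply, hr, hr,
          sub_zero, sub_zero, Matrix.add_apply, smul_mul_assoc, Matrix.smul_apply, smul_eq_mul]
      simp only [h1, sum_add_distrib, sum_const, card_univ]
      rw [← sum_mul, hsum, zero_mul, add_zero]
      exact card_nsmul_eq_zero

end Pool.Agent.Lib.MP_0bd9b3_al
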