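import Pool.Agent.Lib.MP_0bd9b3_al.Main

namespace Pool.Agent.Lib.MP_0bd9b3_al

open Finset FreeSemigroup

section general

variable {ι : Type*}

lemma map_lift {M N : Type*} [Semigroup M] [Semigroup N] (φ : M →ₙ* N) (A : ι → M)
    (w : FreeSemigroup ι) : φ (lift A w) = lift (fun i => φ (A i)) w := by
  induction w with
  | ih1 x => rfl
  | ih2 x y _ hy => rw [lift_of_mul, lift_of_mul, map_mul, hy]

/-- Sums over the orbits of a free action of a finite additive group. -/
lemma sum_eq_zero_of_free_action {G X V : Type*} [AddGroup G] [Fintype G] [Fintype X]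
    [AddCommMonoid V] (act : G → X → X) (h0 : ∀ x, act 0 x = x)
    (hadd : ∀ s t x, act (s + t) x = act s (act t x)) (hfree : ∀ s x, act s x = x → s = 0)
    (f : X → V) (h : ∀ x, ∑ t, f (act t x) = 0) : ∑ x, f x = 0 := by
  classical
  let r : Setoid X :=
    { r := fun x y => ∃ t, act t x = y
      iseqv :=
        { refl := fun x => ⟨0, h0 x⟩
          symm := by
            rintro x y ⟨t, rfl⟩
            exact ⟨-t, by rw [← hadd, neg_add_cancel, h0]⟩
          trans := by
            rintro x y z ⟨t, rfl⟩ ⟨s, rfl⟩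
            exact ⟨s + t, hadd s t x⟩ } }
  rw [← Finset.sum_fiberwise (s := univ) (g := fun a : X => (Quotient.mk r a : Quotient r))]
  refine Finset.sum_eq_zero fun q _ => ?_
  obtain ⟨a, rfl⟩ := Quotient.exists_rep q
  rw [← h a]
  symm
  refine Finset.sum_bij (fun (t : G) _ => act t a) ?_ ?_ ?_ ?_
  · intro t _
    simp only [mem_filter, mem_univ, true_and]
    exact (Quotient.sound (s := r) ⟨t, rfl⟩).symm
  · intro s _ t _ hst
    have h1 : act (-t + s) a = a := by
      rw [hadd, hst, ← hadd, neg_add_cancel, h0]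
    have h2 := hfree _ _ h1
    rw [neg_add_eq_zero] at h2
    exact h2.symm
  · intro b hb
    simp only [mem_filter, mem_univ, true_and] at hb
    obtain ⟨t, ht⟩ : ∃ t, act t a = b := Quotient.exact hb.symm
    exact ⟨t, mem_univ _, ht⟩
  · intro t _
    rfl

end general

variable {ι : Type*} {M : Type*} [NonUnitalRing M]

lemma cj_lift {N : M} (hN : N * N = 0) (A : ι → M) (w : FreeSemigroup ι) :
    lift (fun i => cj N (A i)) w = cj N (lift A w) :=
  (map_lift (⟨cj N, cj_mul hN⟩ : M →ₙ* M) A w).symm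

lemma lift_comm {N : M} {A : ι → M} (h : ∀ i, N * A i = A i * N) (w : FreeSemigroup ι) :
    N * lift A w = lift A w * N := by
  induction w with
  | ih1 x => exact h x
  | ih2 x y _ hy => rw [lift_of_mul, ← mul_assoc, h x, mul_assoc, hy, mul_assoc]

lemma lift_add_of_comm {N : M} (hN : N * N = 0) {A : ι → M} (h : ∀ i, N * A i = A i * N)
    (w : FreeSemigroup ι) :
    ∃ Y, lift (fun i => A i + N) w = lift A w + Y ∧ (Y = N ∨ ∃ Z, Y = Z * N) := by
  induction w with
  | ih1 x => exact ⟨N, rfl, Or.inl rfl⟩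
  | ih2 x y _ hy =>
    obtain ⟨Y, hY, hY'⟩ := hy
    refine ⟨A x * Y + N * lift A y + N * Y, ?_, Or.inr ?_⟩
    · rw [lift_of_mul, lift_of_mul, hY]
      simp only [mul_add, add_mul]
      abel
    · rcases hY' with rfl | ⟨Z, rfl⟩
      · exact ⟨A x + lift A y, by rw [hN, lift_comm h, add_mul, add_zero]⟩
      · refine ⟨A x * Z + lift A y + N * Z, ?_⟩
        rw [lift_comm h]
        simp only [add_mul, mul_assoc]

theorem wsum_eq_zero_of_nil {V : Type*} [AddCommGroup V] [Fintype M] [Fintype ι] [DecidableEq ι]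
    (p : ℕ) [Fact p.Prime]
    (hp : ∀ x : M, p • x = 0) {N : M} (hN0 : N ≠ 0) (hN : N * N = 0) (l : M →+ V)
    (hl : l N = 0) (hl1 : ∀ x, l (N * x) = 0) (hl2 : ∀ x, l (x * N) = 0) (w : FreeSemigroup ι) :
    ∑ A : ι → M, l (lift A w) = 0 := by
  classical
  let τ : (ι → M) → (ι → M) := fun A =>
    if ∀ i, N * A i = A i * N then fun i => A i + N else fun i => cj N (A i)
  have hc : ∀ A : ι → M, (∀ i, N * A i = A i * N) →
      ∀ j : ℕ, τ^[j] A = fun i => A i + j • N := by
    intro A hA j
    induction j with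
    | zero => simp
    | succ j ih =>
      rw [Function.iterate_succ_apply', ih]
      have : ∀ i, N * (A i + j • N) = (A i + j • N) * N := by
        intro i
        simp only [mul_add, add_mul, mul_smul_comm, smul_mul_assoc, hA i]
      simp only [τ, if_pos this, add_smul, one_smul, add_assoc]
  have hn : ∀ A : ι → M, (¬ ∀ i, N * A i = A i * N) → ∀ j : ℕ,
      τ^[j] A = (fun i => (cj N)^[j] (A i)) ∧
        ¬ ∀ i, N * (cj N)^[j] (A i) = (cj N)^[j] (A i) * N := by
    intro A hA j
    induction j with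
    | zero => exact ⟨rfl, hA⟩
    | succ j ih =>
      rw [Function.iterate_succ_apply', ih.1]
      simp only [Function.iterate_succ_apply']
      refine ⟨?_, fun h => ih.2 fun i => comm_of_cj_comm hN (h i)⟩
      simp only [τ, if_neg ih.2]
  refine sum_eq_zero_of_free p τ ?_ ?_ _ ?_ ?_
  · intro A
    by_cases hA : ∀ i, N * A i = A i * N
    · rw [hc A hA]
      funext i
      rw [hp, add_zero]
    · rw [(hn A hA p).1]
      funext i
      rw [cj_iterate hN, hp, hp, mul_smul, hp]
      simp
  · intro A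
    by_cases hA : ∀ i, N * A i = A i * N
    · simp only [τ, if_pos hA]
      intro h
      exact hN0 (by simpa using congrFun h w.head)
    · simp only [τ, if_neg hA]
      exact fun h => hA fun i => comm_of_cj_eq hN (congrFun h i)
  · intro A
    by_cases hA : ∀ i, N * A i = A i * N
    · simp only [τ, if_pos hA]
      obtain ⟨Y, hY, hY'⟩ := lift_add_of_comm hN hA w
      rw [hY, map_add]
      rcases hY' with rfl | ⟨Z, rfl⟩
      · rw [hl, add_zero]
      · rw [hl2, add_zero]
    · simp only [τ, if_neg hA]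
      rw [cj_lift hN]
      simp only [cj, map_add, map_sub, hl1, hl2, add_zero, sub_zero]
  · intro A
    rw [← map_nsmul, hp, map_zero]

/-- First order expansion along `c • Y` when `c * c` kills the ring. -/
lemma lift_add_smul (c : ℕ) (hc : ∀ x : M, (c * c) • x = 0) (A : ι → M) (w : FreeSemigroup ι) :
    ∃ D : M →+ M, ∀ Y, lift (fun i => A i + c • Y) w = lift A w + D (c • Y) := by
  induction w with
  | ih1 x => exact ⟨AddMonoidHom.id M, fun Y => rfl⟩
  | ih2 x y _ hy =>
    obtain ⟨D, hD⟩ := hy
    refine ⟨(AddMonoidHom.mulLeft (A x)).comp D + AddMonoidHom.mulRight (lift A y), fun Y => ?_⟩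
    rw [lift_of_mul, lift_of_mul, hD]
    have h0 : (c • Y) * D (c • Y) = 0 := by
      rw [map_nsmul, smul_mul_assoc, mul_smul_comm, smul_smul, hc]
    simp only [mul_add, add_mul, h0, AddMonoidHom.add_apply, AddMonoidHom.coe_mulLeft,
      AddMonoidHom.coe_comp, AddMonoidHom.coe_mulRight, Function.comp_apply]
    abel

lemma cj_cj {N N' : M} (h1 : N * N' = 0) (h2 : N' * N = 0) (A : M) :
    cj N (cj N' A) = cj (N + N') A := by
  have h3 : ∀ x : M, N * (N' * x) = 0 := fun x => by rw [← mul_assoc, h1, zero_mul]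
  simp only [cj, mul_add, add_mul, mul_sub, sub_mul, mul_assoc, h2, h3, mul_zero]
  abel

end Pool.Agent.Lib.MP_0bd9b3_al
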