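import Pool.Agent.Lib.MP_0bd9b3_al.WordMat

namespace Pool.Agent.Lib.MP_0bd9b3_al

open Finset FreeSemigroup

variable {ι : Type*} [Fintype ι] [DecidableEq ι]
variable {R : Type*} [NonUnitalRing R] [Fintype R] {d : ℕ}

lemma wdomain_diag_zero (hR : ∀ x y : R, x * y = 0 → x = 0 ∨ y = 0) {x : R} (hx : x ≠ 0)
    (hc : Fintype.card R ≠ 2) (w : FreeSemigroup ι) (i j : Fin d) (hij : i ≠ j) :
    (∑ A : ι → Matrix (Fin d) (Fin d) R, lift A w) i i = 0 := by
  have hinj : Function.Injective fun y : R => x * y := by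
    intro a b hab
    have : x * (a - b) = 0 := by rw [mul_sub]; exact sub_eq_zero.mpr hab
    exact sub_eq_zero.mp ((hR _ _ this).resolve_left hx)
  obtain ⟨ε, hε⟩ := (Finite.injective_iff_surjective.mp hinj) x
  have hε' : x * ε = x := hε
  have h1 : ∀ y : R, ε * y = y := by
    intro y
    have : x * (ε * y - y) = 0 := by rw [mul_sub, ← mul_assoc, hε', sub_self]
    exact sub_eq_zero.mp ((hR _ _ this).resolve_left hx)
  have h2 : ∀ y : R, y * ε = y := by
    intro y
    have : (y * ε - y) * x = 0 := by rw [sub_mul, mul_assoc, h1, sub_self]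
    exact sub_eq_zero.mp ((hR _ _ this).resolve_right hx)
  let : Ring R :=
    { (inferInstance : NonUnitalRing R) with
      one := ε
      one_mul := h1
      mul_one := h2 }
  have : Nontrivial R := ⟨x, 0, hx⟩
  have : NoZeroDivisors R := ⟨fun {a b} => hR a b⟩
  have : IsDomain R := NoZeroDivisors.to_isDomain R
  let : Field R := (Finite.isDomain_to_isField R).toField
  exact wfield_diag_zero (F := R) hc w i j hij

/-- Rings killed by a prime power. -/
theorem wpring_zero (p : ℕ) [hp : Fact p.Prime] (m : ℕ) (hm : ∀ x : R, p ^ m • x = 0)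
    (hd : 1 < d) (h : ¬ (d = 2 ∧ Fintype.card R = 2 ∧ ∀ x : R, x * x = 0 → x = 0))
    (w : FreeSemigroup ι) :
    ∑ A : ι → Matrix (Fin d) (Fin d) R, lift A w = 0 := by
  classical
  by_cases h0 : ∀ x : R, x = 0
  · ext a b
    exact h0 _
  push Not at h0
  obtain ⟨x, hx⟩ := h0
  by_cases h1 : ∀ x : R, p • x = 0
  swap
  · have hex : ∃ m, ∀ x : R, p ^ m • x = 0 := ⟨m, hm⟩
    have hs := Nat.find_spec hex
    have hne0 : Nat.find hex ≠ 0 := by
      intro h
      rw [h] at hs
      exact hx (by simpa using hs x)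
    have hne1 : Nat.find hex ≠ 1 := by
      intro h
      rw [h] at hs
      exact h1 (by simpa using hs)
    obtain ⟨t, ht⟩ : ∃ t, Nat.find hex = t + 2 := ⟨Nat.find hex - 2, by omega⟩
    have hmin := Nat.find_min hex (m := t + 1) (by omega)
    push Not at hmin
    obtain ⟨y, hy⟩ := hmin
    rw [ht] at hs
    exact wsum_zero_of_highChar p t hs y hy hd w
  ext i j
  rw [Matrix.zero_apply]
  by_cases hij : i = j
  swap
  · exact wentry_zero_of_single p h1 hx i j j i hij (Ne.symm hij) (fun h => absurd h.symm hij) w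
  subst hij
  by_cases hd2 : d = 2
  swap
  · have h3 : 3 ≤ d := by omega
    have : ∃ a b : Fin d, a ≠ b ∧ i ≠ a ∧ i ≠ b := by
      have hc : 1 < (univ.erase i).card := by
        rw [card_erase_of_mem (mem_univ i), card_univ, Fintype.card_fin]
        omega
      obtain ⟨a, ha, b, hb, hab⟩ := one_lt_card.mp hc
      exact ⟨a, b, hab, (ne_of_mem_erase ha).symm, (ne_of_mem_erase hb).symm⟩
    obtain ⟨a, b, hab, hia, hib⟩ := this
    exact wentry_zero_of_single p h1 hx i i a b hia hib (fun h => absurd h hab) w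
  subst hd2
  obtain ⟨a, ha⟩ := exists_ne i
  by_cases hred : ∀ x : R, x * x = 0 → x = 0
  swap
  · push Not at hred
    obtain ⟨z, hz, hz0⟩ := hred
    exact wentry_zero_of_single p h1 hz0 i i a a ha.symm ha.symm (fun _ => hz) w
  have hc : Fintype.card R ≠ 2 := fun hc => h ⟨rfl, hc, hred⟩
  by_cases hdom : ∀ x y : R, x * y = 0 → x = 0 ∨ y = 0
  · exact wdomain_diag_zero hdom hx hc w i a ha.symm
  push Not at hdom
  obtain ⟨u, v, huv, hu, hv⟩ := hdom
  have h2 := wmul_entry_zero p h1 hred hv huv i i w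
  set s := (∑ A : ι → Matrix (Fin 2) (Fin 2) R, lift A w) i i with hs
  have h3 : s * u = 0 := by
    apply hred
    rw [mul_assoc, ← mul_assoc u, h2, zero_mul, mul_zero]
  exact hred s (wmul_entry_zero p h1 hred hu h3 i i w)

lemma wmap_sum_of_surj {M M' : Type*} [NonUnitalRing M] [NonUnitalRing M'] [Fintype M]
    [Fintype M'] (φ : M →ₙ+* M') (hφ : Function.Surjective φ) (w : FreeSemigroup ι) :
    ∃ c : ℕ, Fintype.card M ^ Fintype.card ι = Fintype.card M' ^ Fintype.card ι * c ∧
      φ (∑ A : ι → M, lift A w) = c • ∑ B : ι → M', lift B w := by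
  classical
  let ψ : (ι → M) →+ (ι → M') :=
    { toFun := fun A i => φ (A i)
      map_zero' := by funext _; exact map_zero φ
      map_add' := fun x y => by funext _; exact map_add φ _ _ }
  have hψ : Function.Surjective ψ := by
    intro B
    choose A hA using fun i => hφ (B i)
    exact ⟨A, funext hA⟩
  have hf : ∀ B : ι → M',
      (univ.filter fun A => ψ A = B).card = (univ.filter fun A => ψ A = 0).card :=
    fun B => AddMonoidHom.card_fiber_eq_of_mem_range ψ (hψ B) (hψ 0)
  refine ⟨(univ.filter fun A => ψ A = 0).card, ?_, ?_⟩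
  · rw [← Fintype.card_fun, ← Fintype.card_fun, ← card_univ (α := ι → M),
      card_eq_sum_card_fiberwise (f := ψ) (t := univ) (fun _ _ => mem_univ _)]
    simp only [hf, sum_const, card_univ, smul_eq_mul]
  · rw [map_sum, ← Finset.sum_fiberwise (s := univ) (g := ψ), smul_sum]
    refine sum_congr rfl fun B _ => ?_
    rw [← hf B, ← sum_const]
    refine sum_congr rfl fun A hA => ?_
    rw [← (mem_filter.mp hA).2]
    exact map_lift (φ : M →ₙ* M') A w

/-- Over the field with two elements the sum is `0` or `1`. -/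
theorem wzmod_two (w : FreeSemigroup ι) :
    ∑ A : ι → Matrix (Fin 2) (Fin 2) (ZMod 2), lift A w = 0 ∨
      ∑ A : ι → Matrix (Fin 2) (Fin 2) (ZMod 2), lift A w = 1 := by
  classical
  set S := ∑ A : ι → Matrix (Fin 2) (Fin 2) (ZMod 2), lift A w with hS
  have hp : ∀ x : ZMod 2, 2 • x = 0 := by decide
  have h01 : S 0 1 = 0 :=
    wentry_zero_of_single 2 hp one_ne_zero 0 1 1 0 (by decide) (by decide)
      (fun h => absurd h (by decide)) w
  have h10 : S 1 0 = 0 :=
    wentry_zero_of_single 2 hp one_ne_zero 1 0 0 1 (by decide) (by decide)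
      (fun h => absurd h (by decide)) w
  let σ : Matrix (Fin 2) (Fin 2) (ZMod 2) ≃+* Matrix (Fin 2) (Fin 2) (ZMod 2) :=
    (Matrix.reindexAlgEquiv (ZMod 2) (ZMod 2) (Equiv.swap (0 : Fin 2) 1)).toRingEquiv
  have hσ : σ S = S := by
    rw [hS, map_sum]
    refine Fintype.sum_equiv (Equiv.piCongrRight fun _ => σ.toEquiv) _ _ fun A => ?_
    exact map_lift (σ : Matrix (Fin 2) (Fin 2) (ZMod 2) →ₙ* Matrix (Fin 2) (Fin 2) (ZMod 2)) A w
  have h11 : S 1 1 = S 0 0 := congrFun (congrFun hσ 0) 0
  have hz : ∀ a : ZMod 2, a = 0 ∨ a = 1 := by decide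
  rcases hz (S 0 0) with h | h
  · left
    ext a b
    fin_cases a <;> fin_cases b <;> simp [h, h01, h10, h11]
  · right
    ext a b
    fin_cases a <;> fin_cases b <;> simp [h, h01, h10, h11]

/-- The ring with two elements and an idempotent. -/
theorem wtwo_elements (hc : Fintype.card R = 2) {e : R} (he : e ≠ 0) (hee : e * e = e)
    (w : FreeSemigroup ι) :
    ∑ A : ι → Matrix (Fin 2) (Fin 2) R, lift A w =
      if ∑ A : ι → Matrix (Fin 2) (Fin 2) (ZMod 2), lift A w = 1 then
        Matrix.diagonal fun _ => e else 0 := by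
  classical
  have h2 : e + e = 0 := by
    have : Fintype.card R • e = 0 := card_nsmul_eq_zero
    rwa [hc, two_nsmul] at this
  have hz : ∀ a : ZMod 2, a = 0 ∨ a = 1 := by decide
  have h11 : (1 : ZMod 2) + 1 = 0 := by decide
  let φ : ZMod 2 →ₙ+* R :=
    { toFun := fun a => if a = 0 then 0 else e
      map_mul' := by
        intro a b
        rcases hz a with rfl | rfl <;> rcases hz b with rfl | rfl <;> simp [hee]
      map_zero' := by simp
      map_add' := by
        intro a b
        rcases hz a with rfl | rfl <;> rcases hz b with rfl | rfl <;> simp [h11, h2] }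
  have hinj : Function.Injective φ := by
    intro a b hab
    rcases hz a with rfl | rfl <;> rcases hz b with rfl | rfl
    · rfl
    · exact absurd (show (0 : R) = e from hab).symm he
    · exact absurd (show e = (0 : R) from hab) he
    · rfl
  have hsurj : Function.Surjective φ :=
    ((Fintype.bijective_iff_injective_and_card φ).mpr ⟨hinj, by rw [hc]; rfl⟩).2
  have hsurj' : Function.Surjective (mapM φ 2) := by
    intro B
    choose A hA using fun a b => hsurj (B a b)
    exact ⟨Matrix.of A, by ext a b; exact hA a b⟩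
  obtain ⟨c, hc1, hc2⟩ := wmap_sum_of_surj (mapM φ 2) hsurj' w
  have hc' : c = 1 := by
    have e1 : Fintype.card (Matrix (Fin 2) (Fin 2) (ZMod 2)) = 16 := by
      change Fintype.card (Fin 2 → Fin 2 → ZMod 2) = _
      simp
    have e2 : Fintype.card (Matrix (Fin 2) (Fin 2) R) = 16 := by
      change Fintype.card (Fin 2 → Fin 2 → R) = _
      simp [hc]
    rw [e1, e2] at hc1
    have hpos : 0 < 16 ^ Fintype.card ι := by positivity
    exact (Nat.eq_of_mul_eq_mul_left hpos (by rw [← hc1, mul_one])).symm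
  rw [hc', one_smul] at hc2
  rw [← hc2]
  split_ifs with h
  · rw [h]
    ext a b
    fin_cases a <;> fin_cases b <;> rfl
  · rw [(wzmod_two w).resolve_right h]
    exact map_zero _

end Pool.Agent.Lib.MP_0bd9b3_al
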