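import Pool.Agent.Lib.MP_0bd9b3_al.Field

namespace Pool.Agent.Lib.MP_0bd9b3_al

open Finset

/-- The sum of all words of length `n` in two letters with `i` letters `true`. -/
def degSum {M : Type*} [Semiring M] (A : Bool → M) (n i : ℕ) : M :=
  ∑ f ∈ (univ.filter fun f : Fin n → Bool => (univ.filter fun k => f k = true).card = i),
    (List.ofFn fun k => A (f k)).prod

lemma degSum_zero {M : Type*} [Semiring M] (A : Bool → M) (i : ℕ) :
    degSum A 0 i = if i = 0 then 1 else 0 := by
  unfold degSum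
  rw [sum_filter]
  rcases i with _ | i <;> simp

lemma degSum_succ {M : Type*} [Semiring M] (A : Bool → M) (n i : ℕ) :
    degSum A (n + 1) i =
      A false * degSum A n i + if i = 0 then 0 else A true * degSum A n (i - 1) := by
  unfold degSum
  simp only [sum_filter]
  rw [← Fintype.sum_equiv (Fin.consEquiv fun _ : Fin (n + 1) => Bool)
    (fun x => if (univ.filter fun k => (Fin.cons x.1 x.2 : Fin (n + 1) → Bool) k = true).card = i
      then (List.ofFn fun k => A ((Fin.cons x.1 x.2 : Fin (n + 1) → Bool) k)).prod else 0) _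
    (fun _ => rfl), Fintype.sum_prod_type, Fintype.sum_bool, add_comm]
  simp only [Fin.card_filter_univ_succ', List.ofFn_succ, List.prod_cons, Fin.cons_zero,
    Fin.cons_succ, mul_sum, mul_ite, mul_zero]
  congr 1
  · simp
  · rcases i with _ | i
    · simp
    · simp [add_comm 1]

/-- The `i`-th binary digit. -/
def bit (p i : ℕ) : ZMod 2 := if p.testBit i then 1 else 0

/-- Multiplication of a binary polynomial by `u X + v`. -/
def mulc (u v : ZMod 2) (p : ℕ) : ℕ := (if u = 1 then p <<< 1 else 0) ^^^ (if v = 1 then p else 0)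

lemma bit_xor (p q i : ℕ) : bit (p ^^^ q) i = bit p i + bit q i := by
  unfold bit
  rw [Nat.testBit_xor]
  cases p.testBit i <;> cases q.testBit i <;> decide

lemma bit_mulc (u v : ZMod 2) (p i : ℕ) :
    bit (mulc u v p) i = v * bit p i + if i = 0 then 0 else u * bit p (i - 1) := by
  have hz : ∀ a : ZMod 2, a = 0 ∨ a = 1 := by decide
  unfold mulc
  rw [bit_xor, add_comm]
  congr 1
  · rcases hz v with rfl | rfl <;> simp [bit]
  · rcases hz u with rfl | rfl
    · simp [bit]
    · rcases i with _ | i <;> simp [bit, Nat.testBit_shiftLeft]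

/-- The entries of `(X • a + b) ^ n` as binary polynomials. -/
def ent (a b : Matrix (Fin 2) (Fin 2) (ZMod 2)) : ℕ → ℕ × ℕ × ℕ × ℕ
  | 0 => (1, 0, 0, 1)
  | (n + 1) =>
    match ent a b n with
    | (p, q, r, s) =>
      (mulc (a 0 0) (b 0 0) p ^^^ mulc (a 0 1) (b 0 1) r,
       mulc (a 0 0) (b 0 0) q ^^^ mulc (a 0 1) (b 0 1) s,
       mulc (a 1 0) (b 1 0) p ^^^ mulc (a 1 1) (b 1 1) r,
       mulc (a 1 0) (b 1 0) q ^^^ mulc (a 1 1) (b 1 1) s)

lemma degSum_eq (A : Bool → Matrix (Fin 2) (Fin 2) (ZMod 2)) (n : ℕ) : ∀ i : ℕ,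
    degSum A n i = !![bit (ent (A true) (A false) n).1 i, bit (ent (A true) (A false) n).2.1 i;
      bit (ent (A true) (A false) n).2.2.1 i, bit (ent (A true) (A false) n).2.2.2 i] := by
  induction n with
  | zero =>
    intro i
    rw [degSum_zero]
    rcases i with _ | i
    · simp only [ent]
      decide
    · ext a b
      fin_cases a <;> fin_cases b <;> simp [ent, bit, Nat.testBit_succ]
  | succ n ih =>
    intro i
    rw [degSum_succ, ih, ih]
    simp only [ent, bit_xor, bit_mulc]
    ext a b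
    by_cases hi : i = 0
    · fin_cases a <;> fin_cases b <;> simp [hi, Matrix.mul_apply, Fin.sum_univ_two]
    · fin_cases a <;> fin_cases b <;> simp [hi, Matrix.mul_apply, Fin.sum_univ_two] <;> ring

theorem degSum_five :
    ∑ A : Bool → Matrix (Fin 2) (Fin 2) (ZMod 2), degSum A 23 5 = 1 := by
  simp only [degSum_eq]
  rw [← Fintype.sum_equiv (Equiv.boolArrowEquivProd _).symm
    (fun x : Matrix (Fin 2) (Fin 2) (ZMod 2) × Matrix (Fin 2) (Fin 2) (ZMod 2) =>
      !![bit (ent x.2 x.1 23).1 5, bit (ent x.2 x.1 23).2.1 5;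
        bit (ent x.2 x.1 23).2.2.1 5, bit (ent x.2 x.1 23).2.2.2 5]) _ (fun _ => rfl),
    Fintype.sum_prod_type]
  simp only [sum_matrix_two]
  decide +kernel

end Pool.Agent.Lib.MP_0bd9b3_al
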